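import Pool.Agent.LKT.Stmts

set_option autoImplicit false

/-!
# Squad LKT, row WLS: walls of the last end link and an inner link
-/

namespace Pool.Agent.LKT.H12

open Pool.Agent.LCK Pool.Agent.LKT

/-- Two crossing links. -/
theorem wlsCore (A A1 B C : E3) (hdis : Disjoint (segment ℝ A A1) (segment ℝ B (B + C)))
    (hA : ‖A - B‖ < ‖C‖) (hA1 : ‖A1 - B‖ < ‖C‖) (p q r t : ℝ) (hp : 0 < p) (hq : 0 < q)
    (ht : 0 < t) (h0 : p + q = r) (hv : p • A + q • A1 = r • B + t • C) : False := by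
  have hr : 0 < r := by linarith
  have hC : 0 < ‖C‖ := lt_of_le_of_lt (norm_nonneg _) hA
  have e1 : t • C = p • (A - B) + q • (A1 - B) := by
    have : t • C = p • A + q • A1 - r • B := by rw [hv]; abel
    rw [this, ← h0, add_smul, smul_sub, smul_sub]
    abel
  have h1 : t * ‖C‖ < r * ‖C‖ := by
    calc t * ‖C‖ = ‖t • C‖ := by rw [norm_smul, Real.norm_of_nonneg ht.le]
      _ = ‖p • (A - B) + q • (A1 - B)‖ := by rw [e1]
      _ ≤ ‖p • (A - B)‖ + ‖q • (A1 - B)‖ := norm_add_le _ _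
      _ = p * ‖A - B‖ + q * ‖A1 - B‖ := by
          rw [norm_smul, norm_smul, Real.norm_of_nonneg hp.le, Real.norm_of_nonneg hq.le]
      _ < p * ‖C‖ + q * ‖C‖ := add_lt_add (mul_lt_mul_of_pos_left hA hp)
          (mul_lt_mul_of_pos_left hA1 hq)
      _ = r * ‖C‖ := by rw [← h0]; ring
  have htr : t < r := lt_of_mul_lt_mul_right h1 hC.le
  have hrne : r ≠ 0 := hr.ne'
  have m1 : B + (t / r) • C ∈ segment ℝ A A1 := by
    refine ⟨p / r, q / r, by positivity, by positivity, ?_, ?_⟩
    · rw [← add_div, h0, div_self hrne]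
    · have : (p / r) • A + (q / r) • A1 = (1 / r) • (p • A + q • A1) := by
        rw [smul_add, smul_smul, smul_smul]
        congr 1 <;> congr 1 <;> ring
      rw [this, hv, smul_add, smul_smul, smul_smul, one_div, inv_mul_cancel₀ hrne, one_smul,
        div_eq_inv_mul]
  have m2 : B + (t / r) • C ∈ segment ℝ B (B + C) := by
    refine ⟨1 - t / r, t / r, ?_, by positivity, by ring, ?_⟩
    · rw [sub_nonneg, div_le_one hr]
      exact htr.le
    · rw [smul_add, ← add_assoc, ← add_smul, sub_add_cancel, one_smul]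
  exact Set.disjoint_left.mp hdis m1 m2

theorem wlsFin (x : Fin 8 → E3) (a a1 : Fin 8) (ha : ¬(a = 0 ∨ a = 7)) (ha1 : ¬(a1 = 0 ∨ a1 = 7))
    (hdis : Disjoint (segment ℝ (x a) (x a1)) (segment ℝ (x 6) (x 6 + x 7)))
    (hA : ‖x a - x 6‖ < ‖x 7‖) (hA1 : ‖x a1 - x 6‖ < ‖x 7‖) (p q r t : ℝ) (hp : 0 < p)
    (hq : 0 < q) (ht : 0 < t)
    (h : ∀ i, p * hom x a i + q * hom x a1 i = r * hom x 6 i + t * hom x 7 i) : False := by
  refine wlsCore (x a) (x a1) (x 6) (x 7) hdis hA hA1 p q r t hp hq ht ?_ ?_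
  · have := h 0
    simpa [hom, ha, ha1] using this
  · ext i
    fin_cases i
    · have := h 1
      simpa [hom] using this
    · have := h 2
      simpa [hom] using this
    · have := h 3
      simpa [hom] using this

theorem wls (crm : CrmStmt) : WlsStmt := by
  intro x hx j hj hF h0
  obtain ⟨hdis, -, hn7⟩ := hx
  have cr := crm.1
  have d4567 : F 58 x = -D x 4 5 6 7 := by simp [F, tb]
  have d3567 : F 57 x = D x 3 5 6 7 := by simp [F, tb]
  have d3467 : F 56 x = -D x 3 4 6 7 := by simp [F, tb]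
  have d3457 : F 55 x = -D x 3 4 5 7 := by simp [F, tb]
  have d3456 : F 54 x = D x 3 4 5 6 := by simp [F, tb]
  have d2567 : F 53 x = -D x 2 5 6 7 := by simp [F, tb]
  have d2367 : F 49 x = -D x 2 3 6 7 := by simp [F, tb]
  have d2357 : F 48 x = D x 2 3 5 7 := by simp [F, tb]
  have d2356 : F 47 x = -D x 2 3 5 6 := by simp [F, tb]
  have d1367 : F 39 x = D x 1 3 6 7 := by simp [F, tb]
  have d1267 : F 37 x = -D x 1 2 6 7 := by simp [F, tb]
  have d1237 : F 33 x = -D x 1 2 3 7 := by simp [F, tb]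
  have d1236 : F 32 x = D x 1 2 3 6 := by simp [F, tb]
  rcases hj with rfl | rfl | rfl | rfl
  · have a1 := hF 57 (by norm_num) (by norm_num)
    have a2 := hF 56 (by norm_num) (by norm_num)
    have a3 := hF 55 (by norm_num) (by norm_num)
    have a4 := hF 54 (by norm_num) (by norm_num)
    rw [d3567] at a1
    rw [d3467] at a2
    rw [d3457] at a3
    rw [d3456] at a4
    rw [d4567] at h0
    refine wlsFin x 4 5 (by decide) (by decide) (hdis 4 6 (by decide))
      (hn7 4 (by decide) (by decide)) (hn7 5 (by decide) (by decide))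
      (D x 3 5 6 7) (-D x 3 4 6 7) (-D x 3 4 5 7) (D x 3 4 5 6) a1 a2 a4 ?_
    intro i
    have c := cr (hom x 3) (hom x 4) (hom x 5) (hom x 6) (hom x 7) i
    change D x 4 5 6 7 * hom x 3 i - D x 3 5 6 7 * hom x 4 i + D x 3 4 6 7 * hom x 5 i -
      D x 3 4 5 7 * hom x 6 i + D x 3 4 5 6 * hom x 7 i = 0 at c
    linear_combination -c - hom x 3 i * h0
  · have a1 := hF 58 (by norm_num) (by norm_num)
    have a2 := hF 57 (by norm_num) (by norm_num)
    have a3 := hF 55 (by norm_num) (by norm_num)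
    have a4 := hF 54 (by norm_num) (by norm_num)
    rw [d4567] at a1
    rw [d3567] at a2
    rw [d3457] at a3
    rw [d3456] at a4
    rw [d3467] at h0
    refine wlsFin x 3 4 (by decide) (by decide) (hdis 3 6 (by decide))
      (hn7 3 (by decide) (by decide)) (hn7 4 (by decide) (by decide))
      (-D x 4 5 6 7) (D x 3 5 6 7) (-D x 3 4 5 7) (D x 3 4 5 6) a1 a2 a4 ?_
    intro i
    have c := cr (hom x 3) (hom x 4) (hom x 5) (hom x 6) (hom x 7) i
    change D x 4 5 6 7 * hom x 3 i - D x 3 5 6 7 * hom x 4 i + D x 3 4 6 7 * hom x 5 i -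
      D x 3 4 5 7 * hom x 6 i + D x 3 4 5 6 * hom x 7 i = 0 at c
    linear_combination -c - hom x 5 i * h0
  · have a1 := hF 57 (by norm_num) (by norm_num)
    have a2 := hF 53 (by norm_num) (by norm_num)
    have a3 := hF 48 (by norm_num) (by norm_num)
    have a4 := hF 47 (by norm_num) (by norm_num)
    rw [d3567] at a1
    rw [d2567] at a2
    rw [d2357] at a3
    rw [d2356] at a4
    rw [d2367] at h0
    refine wlsFin x 2 3 (by decide) (by decide) (hdis 2 6 (by decide))
      (hn7 2 (by decide) (by decide)) (hn7 3 (by decide) (by decide))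
      (D x 3 5 6 7) (-D x 2 5 6 7) (D x 2 3 5 7) (-D x 2 3 5 6) a1 a2 a4 ?_
    intro i
    have c := cr (hom x 2) (hom x 3) (hom x 5) (hom x 6) (hom x 7) i
    change D x 3 5 6 7 * hom x 2 i - D x 2 5 6 7 * hom x 3 i + D x 2 3 6 7 * hom x 5 i -
      D x 2 3 5 7 * hom x 6 i + D x 2 3 5 6 * hom x 7 i = 0 at c
    linear_combination c + hom x 5 i * h0
  · have a1 := hF 49 (by norm_num) (by norm_num)
    have a2 := hF 39 (by norm_num) (by norm_num)
    have a3 := hF 33 (by norm_num) (by norm_num)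
    have a4 := hF 32 (by norm_num) (by norm_num)
    rw [d2367] at a1
    rw [d1367] at a2
    rw [d1237] at a3
    rw [d1236] at a4
    rw [d1267] at h0
    refine wlsFin x 1 2 (by decide) (by decide) (hdis 1 6 (by decide))
      (hn7 1 (by decide) (by decide)) (hn7 2 (by decide) (by decide))
      (-D x 2 3 6 7) (D x 1 3 6 7) (-D x 1 2 3 7) (D x 1 2 3 6) a1 a2 a4 ?_
    intro i
    have c := cr (hom x 1) (hom x 2) (hom x 3) (hom x 6) (hom x 7) i
    change D x 2 3 6 7 * hom x 1 i - D x 1 3 6 7 * hom x 2 i + D x 1 2 6 7 * hom x 3 i -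
      D x 1 2 3 7 * hom x 6 i + D x 1 2 3 6 * hom x 7 i = 0 at c
    linear_combination -c - hom x 3 i * h0

end Pool.Agent.LKT.H12
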